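import Pool.Agent.Lib.EHM47.Main

/-!
# Graphs on ordinals without infinite paths and without large independent sets (MP_95a8e7_lc, Q1)

Property (P) of `α`: every graph on `α` has an infinite path or an independent set of order type
`α`.  If `2 ^ ℵ_n = ℵ_{n+1}` for some natural number `n`, then (P) fails for a limit ordinal of
cardinality `ℵ_{n+1}`; for `n = 0, 1, 2` it fails for `ω_{n+1} ^ (ω_n + 2)`.  In particular the
continuum hypothesis refutes (P) for `ω₁ ^ (ω + 2)`.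
-/

open Cardinal Ordinal Set

namespace Pool.Agent.Results.MP_95a8e7_lc.GCHFailure

open Pool.Agent.Lib.EHM47

theorem limit_case (n : ℕ) (h : (2 : Cardinal.{0}) ^ (ℵ_ (n : Ordinal.{0})) =
    ℵ_ ((n : Ordinal.{0}) + 1)) (b : Ordinal.{0}) (hb : b.card ≤ ℵ_ ((n : Ordinal.{0}) + 1))
    (hass : Assigned (ω_ ((n : Ordinal.{0}) + 1)) b (ω_ (n : Ordinal.{0}))) :
    Order.IsSuccLimit (ω_ ((n : Ordinal.{0}) + 1) ^ (b + 2)) ∧
      (ω_ ((n : Ordinal.{0}) + 1) ^ (b + 2)).card = ℵ_ ((n : Ordinal.{0}) + 1) ∧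
      ¬ PropP (ω_ ((n : Ordinal.{0}) + 1) ^ (b + 2)) := by
  have hs : Order.succ (ℵ_ (n : Ordinal.{0})) = ℵ_ ((n : Ordinal.{0}) + 1) :=
    Cardinal.succ_aleph _
  have ho : (Order.succ (ℵ_ (n : Ordinal.{0}))).ord = ω_ ((n : Ordinal.{0}) + 1) := by
    rw [hs, Cardinal.ord_aleph]
  have hlim : Order.IsSuccLimit (ω_ ((n : Ordinal.{0}) + 1)) := by
    rw [← Cardinal.ord_aleph]
    exact isSuccLimit_ord (Cardinal.aleph0_le_aleph _)
  have hpos : (0 : Ordinal.{0}) < b + 2 := lt_of_lt_of_le two_pos le_add_self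
  refine ⟨isSuccLimit_opow_left hlim hpos.ne', ?_, ?_⟩
  · rw [card_opow_eq_of_omega0_le_left (omega0_le_of_isSuccLimit hlim) hpos, Ordinal.card_omega]
    refine max_eq_left ?_
    rw [Ordinal.card_add]
    refine Cardinal.add_le_of_le (Cardinal.aleph0_le_aleph _) hb ?_
    refine le_trans ?_ (Cardinal.aleph0_le_aleph _)
    exact (Cardinal.lt_aleph0.2 ⟨2, by simp⟩).le
  · rw [← ho]
    refine not_propP (ℵ_ (n : Ordinal.{0})) (Cardinal.aleph0_le_aleph _) (h.trans hs.symm) b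
      (by rw [hs]; exact hb) ?_
    rw [ho, Cardinal.ord_aleph]
    exact hass

theorem general_case (n : ℕ) (h : (2 : Cardinal.{0}) ^ (ℵ_ (n : Ordinal.{0})) =
    ℵ_ ((n : Ordinal.{0}) + 1)) : ∃ α : Ordinal.{0}, Order.IsSuccLimit α ∧
      α.card = ℵ_ ((n : Ordinal.{0}) + 1) ∧ ¬ PropP α := by
  obtain ⟨b, hb, hass⟩ := assigned_general n (ω_ ((n : Ordinal.{0}) + 1)) (by
    rw [Cardinal.ord_aleph]
    exact Ordinal.omega_le_omega.2 le_self_add)
  rw [Ordinal.card_omega] at hb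
  rw [Cardinal.ord_aleph] at hass
  exact ⟨_, limit_case n h b hb hass⟩

theorem small_case (n : ℕ) (hn : n ≤ 2) (h : (2 : Cardinal.{0}) ^ (ℵ_ (n : Ordinal.{0})) =
    ℵ_ ((n : Ordinal.{0}) + 1)) :
    ¬ PropP (ω_ ((n : Ordinal.{0}) + 1) ^ (ω_ (n : Ordinal.{0}) + 2)) := by
  refine (limit_case n h _ ?_ ?_).2.2
  · rw [Ordinal.card_omega]
    exact Cardinal.aleph_le_aleph.2 le_self_add
  · obtain rfl | rfl | rfl : n = 0 ∨ n = 1 ∨ n = 2 := by omega
    · simp only [Nat.cast_zero, Ordinal.omega_zero]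
      exact assigned_zero _ (omega_pos _)
    · simp only [Nat.cast_one]
      exact assigned_one _ (Ordinal.omega_le_omega.2 le_self_add)
    · simp only [Nat.cast_ofNat]
      refine assigned_two _ (Ordinal.omega_le_omega.2 le_self_add) ?_
      rw [← Cardinal.ord_aleph]
      exact isSuccLimit_ord (Cardinal.aleph0_le_aleph _)

/-- If `2 ^ ℵ_n = ℵ_{n+1}` for some natural number `n` then (P) fails for a limit ordinal of
cardinality `ℵ_{n+1}`, and for `n ≤ 2` it fails for `ω_{n+1} ^ (ω_n + 2)`.  Hence (P) for all limit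
ordinals implies `ℵ_{n+1} < 2 ^ ℵ_n` for all natural numbers `n`. -/
theorem result :
    (∀ n : ℕ, n ≤ 2 → (2 : Cardinal.{0}) ^ (ℵ_ (n : Ordinal.{0})) = ℵ_ ((n : Ordinal.{0}) + 1) →
      ¬ PropP (ω_ ((n : Ordinal.{0}) + 1) ^ (ω_ (n : Ordinal.{0}) + 2))) ∧
    (∀ n : ℕ, (2 : Cardinal.{0}) ^ (ℵ_ (n : Ordinal.{0})) = ℵ_ ((n : Ordinal.{0}) + 1) →
      ∃ α : Ordinal.{0}, Order.IsSuccLimit α ∧ α.card = ℵ_ ((n : Ordinal.{0}) + 1) ∧
        ¬ PropP α) ∧
    ((∀ α : Ordinal.{0}, Order.IsSuccLimit α → PropP α) →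
      ∀ n : ℕ, ℵ_ ((n : Ordinal.{0}) + 1) < (2 : Cardinal.{0}) ^ (ℵ_ (n : Ordinal.{0}))) := by
  refine ⟨small_case, general_case, fun hP n => ?_⟩
  have h1 : ℵ_ ((n : Ordinal.{0}) + 1) ≤ (2 : Cardinal.{0}) ^ (ℵ_ (n : Ordinal.{0})) := by
    rw [← Cardinal.succ_aleph]
    exact Order.succ_le_of_lt (Cardinal.cantor _)
  refine lt_of_le_of_ne h1 (fun h2 => ?_)
  obtain ⟨α, hα, -, hα2⟩ := general_case n h2.symm
  exact hα2 (hP α hα)

end Pool.Agent.Results.MP_95a8e7_lc.GCHFailure
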