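import Pool.Agent.Lib.H45EHM.Main

/-!
# Infinite paths or independent sets of full order type: multiples of a regular cardinal

For a regular uncountable cardinal `κ` and an infinite cardinal `θ < κ`, every graph on an ordinal
`α < κ^(θ+2)` that is a multiple of `κ` has an infinite path or an independent set of order type
`α`.
-/

set_option autoImplicit false

universe u

namespace Pool.Agent.Results.MP_95a8e7_lc.RegularMultiples

open Cardinal

theorem result (κ θ : Cardinal.{u}) (hκ : κ.IsRegular) (hκ0 : ℵ₀ < κ) (hθ : ℵ₀ ≤ θ) (hθκ : θ < κ)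
    (α : Ordinal.{u}) (hdvd : κ.ord ∣ α) (hα : α < κ.ord ^ (θ.ord + 2))
    (G : SimpleGraph (Set.Iio α)) :
    (∃ f : ℕ → Set.Iio α, Function.Injective f ∧ ∀ n, G.Adj (f n) (f (n + 1))) ∨
      ∃ S : Set (Set.Iio α), (∀ x ∈ S, ∀ y ∈ S, ¬ G.Adj x y) ∧ Nonempty (S ≃o Set.Iio α) :=
  Pool.Agent.Lib.H45EHM.path_or_indep hκ hκ0 hθ hθκ α hdvd hα G

end Pool.Agent.Results.MP_95a8e7_lc.RegularMultiples
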