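import Pool.Agent.Lib.H47Q.Final
import Pool.Agent.Lib.H47Q.NotFree

/-!
# Property (P) for all limit ordinals is independent of ZFC (MP_95a8e7_lc, Q1)

`PropP α` is property (P) of the ordinal `α`: every graph on `α` has an infinite path or an
independent set of order type `α`. `Free K`: for each function `C` which assigns countable subsets
of `K` to the finite sequences of elements of `K` there is an infinite sequence `τ` in `K` with
`τ j ∉ C [τ (j+1), …, τ (j+n)]` for all `j, n`. It follows from the partition relation
`K → (ω)^{<ω}_2` of the `ω`-Erdős cardinals. `PhiIn E`: the structure `(M, E)` satisfies the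
sentence `there is a set K with Free K and Martin's axiom for |K| dense sets of Fn(K, 2)`
(`Free K` in the form: each countable algebra on `K` has an infinite strictly decreasing sequence
of subalgebras).
-/

set_option autoImplicit false

open Set Ordinal Cardinal

namespace Pool.Agent.Results.MP_95a8e7_lc.Undecidable

open Pool.Agent.H5Z Pool.Agent.H30C Pool.Agent.H47Q Pool.Agent.Lib.EHM47

theorem result :
    -- the statement is not provable in ZFC
    ((∃ (M : Type 1) (E : M → M → Prop), ModelsZFC E ∧ DiaIn E) ∧
      (DiaIn (fun x y : ZFSet.{0} => x ∈ y) →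
        ¬ ∀ α : Ordinal.{0}, Order.IsSuccLimit α → PropP α)) ∧
    -- the statement is not refutable in ZFC
    (((∃ K : Type, Free K) → ∃ (M : Type 1) (E : M → M → Prop), ModelsZFC E ∧ PhiIn E) ∧
      (PhiIn (fun x y : ZFSet.{0} => x ∈ y) →
        ∀ α : Ordinal.{0}, Order.IsSuccLimit α → PropP α)) ∧
    (∀ K : Type, Erdos K → Free K) ∧
    (∀ K : Type, Free K → CohenMA K → ∀ α : Ordinal.{0}, Order.IsSuccLimit α → PropP α) ∧
    -- the hypothesis on `K` is necessary
    ((∀ α : Ordinal.{0}, Order.IsSuccLimit α → PropP α) → ∀ K : Type, Infinite K →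
      (2 : Cardinal.{0}) ^ #K = Order.succ #K → Free K) ∧
    ∀ K : Type, #K < ℵ_ (ω : Ordinal.{0}) → ¬ Free K :=
  ⟨final.1, final.2.1, final.2.2.1, final.2.2.2.1, final.2.2.2.2, fun _ h => not_free_of_lt h⟩

end Pool.Agent.Results.MP_95a8e7_lc.Undecidable
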